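import Pool.Agent.Helper71_F2.Data

/-!
# `3/4` is a reciprocal density of a binary polynomial
-/

set_option autoImplicit false

namespace Pool.Agent.Results.MP_375d90_nt.ThreeQuarters

open Polynomial

/-- The order of `f`: the least `D ≥ 1` such that `f` divides `1 + X ^ D`. -/
noncomputable def polyOrd (f : (ZMod 2)[X]) : ℕ :=
  sInf {D : ℕ | 1 ≤ D ∧ f ∣ 1 + X ^ D}

/-- `f^* = (1 + X ^ D) / f`, where `D` is the order of `f`. -/
noncomputable def dualPoly (f : (ZMod 2)[X]) : (ZMod 2)[X] :=
  (1 + X ^ polyOrd f) / f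

/-- `ℓ₁ g`: the number of nonzero coefficients of `g`. -/
noncomputable def ell1 (g : (ZMod 2)[X]) : ℕ := g.support.card

/-- `γ f = ℓ₁ (f^*) / ord f`. -/
noncomputable def gam (f : (ZMod 2)[X]) : ℚ := (ell1 (dualPoly f) : ℚ) / (polyOrd f : ℚ)

theorem add_self_eq_zero' (p : (ZMod 2)[X]) : p + p = 0 := CharTwo.add_self_eq_zero p

theorem one_add_pow_mul (D q : ℕ) :
    (1 + (X : (ZMod 2)[X]) ^ (D * q)) =
      (1 + X ^ D) * ∑ i ∈ Finset.range q, (X : (ZMod 2)[X]) ^ (D * i) := by
  have h := mul_geom_sum ((X : (ZMod 2)[X]) ^ D) q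
  simp only [← pow_mul] at h
  rw [CharTwo.sub_eq_add, CharTwo.sub_eq_add] at h
  rw [add_comm 1, add_comm 1, h]

theorem coeff_mul_geom (P : (ZMod 2)[X]) (D q : ℕ) (hP : P.natDegree < D) (a b : ℕ) (hb : b < D) :
    (P * ∑ i ∈ Finset.range q, (X : (ZMod 2)[X]) ^ (D * i)).coeff (D * a + b)
      = if a < q then P.coeff b else 0 := by
  rw [Finset.mul_sum, Polynomial.finsetSum_coeff]
  have h : ∀ i ∈ Finset.range q, (P * (X : (ZMod 2)[X]) ^ (D * i)).coeff (D * a + b)
      = if i = a then P.coeff b else 0 := by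
    intro i _
    rw [Polynomial.coeff_mul_X_pow']
    rcases lt_trichotomy i a with hia | hia | hia
    · have h1 : D * i + D ≤ D * a := by
        rw [← Nat.mul_succ]; exact Nat.mul_le_mul_left D hia
      have h2 : D * i ≤ D * a + b := by omega
      rw [if_pos h2, if_neg (by omega)]
      apply Polynomial.coeff_eq_zero_of_natDegree_lt
      omega
    · subst hia
      simp
    · have h1 : D * a + D ≤ D * i := by
        rw [← Nat.mul_succ]; exact Nat.mul_le_mul_left D hia
      rw [if_neg (by omega), if_neg (by omega)]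
  rw [Finset.sum_congr rfl h, Finset.sum_ite_eq']
  simp

theorem card_support_mul_geom (P : (ZMod 2)[X]) (D q : ℕ) (hP : P.natDegree < D) :
    (P * ∑ i ∈ Finset.range q, (X : (ZMod 2)[X]) ^ (D * i)).support.card
      = q * P.support.card := by
  have hD : 0 < D := by omega
  have hsup : (P * ∑ i ∈ Finset.range q, (X : (ZMod 2)[X]) ^ (D * i)).support
      = (Finset.range q ×ˢ P.support).image (fun x => D * x.1 + x.2) := by
    ext n
    rw [Polynomial.mem_support_iff, Finset.mem_image]
    have hn : n = D * (n / D) + n % D := (Nat.div_add_mod n D).symm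
    constructor
    · intro h
      rw [hn, coeff_mul_geom P D q hP _ _ (Nat.mod_lt _ hD)] at h
      by_cases hq : n / D < q
      · rw [if_pos hq] at h
        refine ⟨(n / D, n % D), ?_, hn.symm⟩
        simp [hq, h]
      · simp [hq] at h
    · rintro ⟨⟨i, j⟩, hij, rfl⟩
      rw [Finset.mem_product, Finset.mem_range, Polynomial.mem_support_iff] at hij
      have hj : j < D := lt_of_le_of_lt (Polynomial.le_natDegree_of_ne_zero hij.2) hP
      rw [coeff_mul_geom P D q hP i j hj, if_pos hij.1]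
      exact hij.2
  rw [hsup, Finset.card_image_of_injOn, Finset.card_product, Finset.card_range]
  rintro ⟨i, j⟩ hij ⟨i', j'⟩ hij' h
  simp only [Finset.coe_product, Set.mem_prod, Finset.mem_coe, Polynomial.mem_support_iff] at hij hij'
  have hj : j < D := lt_of_le_of_lt (Polynomial.le_natDegree_of_ne_zero hij.2) hP
  have hj' : j' < D := lt_of_le_of_lt (Polynomial.le_natDegree_of_ne_zero hij'.2) hP
  simp only at h
  have h1 : (D * i + j) / D = i := by
    rw [Nat.mul_add_div hD, Nat.div_eq_of_lt hj, add_zero]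
  have h2 : (D * i' + j') / D = i' := by
    rw [Nat.mul_add_div hD, Nat.div_eq_of_lt hj', add_zero]
  have hi : i = i' := by rw [← h1, ← h2, h]
  subst hi
  have : j = j' := by omega
  rw [this]

/-- `γ f` may be computed from any exponent `N ≥ 1` with `f ∣ 1 + X ^ N`. -/
theorem gam_eq (f P : (ZMod 2)[X]) (N : ℕ) (hN : 1 ≤ N) (hdeg : 1 ≤ f.natDegree)
    (hfP : f * P = 1 + X ^ N) : gam f = (P.support.card : ℚ) / (N : ℚ) := by
  have hf0 : f ≠ 0 := by
    rintro rfl
    simp at hdeg
  have hNmem : N ∈ {D : ℕ | 1 ≤ D ∧ f ∣ 1 + X ^ D} := ⟨hN, ⟨P, hfP.symm⟩⟩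
  have hmem : polyOrd f ∈ {D : ℕ | 1 ≤ D ∧ f ∣ 1 + X ^ D} := Nat.sInf_mem ⟨N, hNmem⟩
  have hmin : ∀ D : ℕ, 1 ≤ D → f ∣ 1 + X ^ D → polyOrd f ≤ D := fun D h1 h2 =>
    Nat.sInf_le ⟨h1, h2⟩
  set D := polyOrd f with hDdef
  obtain ⟨hD1, hDdvd⟩ := hmem
  -- `D ∣ N`
  have hdvd : D ∣ N := by
    by_contra hnd
    have hr : N % D ≠ 0 := fun h => hnd (Nat.dvd_of_mod_eq_zero h)
    have hlt : N % D < D := Nat.mod_lt _ hD1
    have h1 : f ∣ 1 + X ^ (D * (N / D)) := by
      rw [one_add_pow_mul]
      exact Dvd.dvd.mul_right hDdvd _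
    have h2 : f ∣ 1 + X ^ (N % D) := by
      have h3 : (1 + X ^ (N % D) : (ZMod 2)[X])
          = (1 + X ^ N) + X ^ (N % D) * (1 + X ^ (D * (N / D))) := by
        have h4 : (X : (ZMod 2)[X]) ^ N = X ^ (N % D) * X ^ (D * (N / D)) := by
          rw [← pow_add, Nat.mod_add_div]
        rw [mul_add, mul_one, ← h4]
        have h5 := add_self_eq_zero' ((X : (ZMod 2)[X]) ^ N)
        linear_combination -h5
      rw [h3]
      exact dvd_add ⟨P, hfP.symm⟩ (Dvd.dvd.mul_left h1 _)
    have := hmin (N % D) (Nat.one_le_iff_ne_zero.mpr hr) h2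
    omega
  obtain ⟨q, hq⟩ := hdvd
  have hqpos : 0 < q := by
    rcases Nat.eq_zero_or_pos q with h | h
    · subst h; simp at hq; omega
    · exact h
  -- the cofactor at the order
  have hdual : f * dualPoly f = 1 + X ^ D := by
    unfold dualPoly
    rw [← hDdef]
    exact EuclideanDomain.mul_div_cancel' hf0 hDdvd
  have hP : P = dualPoly f * ∑ i ∈ Finset.range q, (X : (ZMod 2)[X]) ^ (D * i) := by
    apply mul_left_cancel₀ hf0
    rw [hfP, ← mul_assoc, hdual, hq, one_add_pow_mul]
  have hne : dualPoly f ≠ 0 := by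
    intro h0
    rw [h0, mul_zero] at hdual
    have := congrArg (fun p => Polynomial.coeff p D) hdual
    simp only [Polynomial.coeff_zero, Polynomial.coeff_add, Polynomial.coeff_X_pow,
      Polynomial.coeff_one, if_true] at this
    rw [if_neg (by omega : ¬ D = 0)] at this
    simp at this
  have hdegsum : f.natDegree + (dualPoly f).natDegree = D := by
    rw [← Polynomial.natDegree_mul hf0 hne, hdual, add_comm]
    have : (1 : (ZMod 2)[X]) = C 1 := by simp
    rw [this, Polynomial.natDegree_X_pow_add_C]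
  have hlt : (dualPoly f).natDegree < D := by omega
  have hcard : P.support.card = q * (dualPoly f).support.card := by
    rw [hP]; exact card_support_mul_geom (dualPoly f) D q hlt
  unfold gam ell1
  rw [← hDdef, hcard, hq]
  have hDq : (D : ℚ) ≠ 0 := by positivity
  have hqq : (q : ℚ) ≠ 0 := by positivity
  push_cast
  field_simp

open Pool.Agent.Helper71_F2

/-- the witness -/
noncomputable def wit : (ZMod 2)[X] := (exps.map (fun e => (X : (ZMod 2)[X]) ^ e)).sum

theorem toPoly_one : toPoly 1 = 1 := by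
  ext i
  rw [coeff_toPoly, Polynomial.coeff_one]
  cases i with
  | zero => simp
  | succ i => simp [Nat.testBit_succ]

theorem wit_mul_aux (N : ℕ) (h : shiftXor cof exps = (1 <<< N) ^^^ 1) :
    wit * toPoly cof = 1 + X ^ N := by
  unfold wit
  rw [← toPoly_shiftXor, h, toPoly_xor, toPoly_shiftLeft, toPoly_one, mul_one, add_comm]

theorem wit_mul : wit * toPoly cof = 1 + X ^ 66576 := wit_mul_aux 66576 shiftXor_cof

theorem coeff_sum_map (l : List ℕ) (n : ℕ) :
    ((l.map (fun e => (X : (ZMod 2)[X]) ^ e)).sum).coeff n = ((l.count n : ℕ) : ZMod 2) := by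
  induction l with
  | nil => simp
  | cons e l ih =>
    rw [List.map_cons, List.sum_cons, Polynomial.coeff_add, ih, Polynomial.coeff_X_pow,
      List.count_cons]
    by_cases h : e = n
    · subst h; simp [add_comm]
    · simp [h, Ne.symm h]

theorem count_zero : exps.count 0 = 1 := by decide +kernel

theorem count_top : exps.count 942 = 1 := by decide +kernel

theorem wit_coeff_zero : wit.coeff 0 = 1 := by
  unfold wit
  rw [coeff_sum_map, count_zero, Nat.cast_one]

theorem wit_natDegree : 1 ≤ wit.natDegree := by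
  have h : wit.coeff 942 ≠ 0 := by
    unfold wit
    rw [coeff_sum_map, count_top, Nat.cast_one]
    exact one_ne_zero
  have := Polynomial.le_natDegree_of_ne_zero h
  omega

theorem card_cof : (toPoly cof).support.card = 49932 := by
  rw [card_support_toPoly 17 cof cof_lt, popc_cof]

/-- `3/4` is a reciprocal density: some `f ∈ 𝔽₂[x]` with `f(0) = 1` and `deg f ≥ 1` has
`γ(f) = 3/4`. -/
theorem result : ∃ f : (ZMod 2)[X], f.coeff 0 = 1 ∧ 1 ≤ f.natDegree ∧ gam f = 3 / 4 := by
  refine ⟨wit, wit_coeff_zero, wit_natDegree, ?_⟩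
  rw [gam_eq wit (toPoly cof) 66576 (by norm_num) wit_natDegree wit_mul, card_cof]
  norm_num

end Pool.Agent.Results.MP_375d90_nt.ThreeQuarters
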